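import Pool.Agent.P8H82.JG.Stm

set_option autoImplicit false

/-! # Package LOC of project JG: the number of pairs of residue classes with the local condition -/

namespace Pool.Agent.P8H86.JG

open NumberField IsDedekindDomain Pool.Agent.P8H82.JG

section

variable {K : Type} [Field K] [NumberField K]

/-- the image of `P ^ j` in `O / P ^ n` -/
noncomputable def JJ (P : Ideal (𝓞 K)) (n j : ℕ) : Ideal (𝓞 K ⧸ P ^ n) :=
  (P ^ j).map (Ideal.Quotient.mk (P ^ n))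

theorem mem_JJ {P : Ideal (𝓞 K)} {n j : ℕ} (h : j ≤ n) {a : 𝓞 K} :
    Ideal.Quotient.mk (P ^ n) a ∈ JJ P n j ↔ a ∈ P ^ j :=
  Ideal.mem_quotient_iff_mem (Ideal.pow_le_pow_right h)

theorem fin_quot {P : Ideal (𝓞 K)} (hP : P ≠ ⊥) (n : ℕ) : Finite (𝓞 K ⧸ P ^ n) :=
  Ideal.finiteQuotientOfFreeOfNeBot _ (pow_ne_zero _ hP)

theorem card_quot {P : Ideal (𝓞 K)} (hP : P ≠ ⊥) [P.IsPrime] (n : ℕ) :
    Nat.card (𝓞 K ⧸ P ^ n) = Ideal.absNorm P ^ n := by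
  have := cardQuot_pow_of_prime hP (i := n)
  rw [Submodule.cardQuot_apply, Submodule.cardQuot_apply] at this
  rw [this, Ideal.absNorm_apply, Submodule.cardQuot_apply]

theorem card_JJ {P : Ideal (𝓞 K)} (hP : P ≠ ⊥) [P.IsPrime] {n j : ℕ} (h : j ≤ n) :
    (JJ P n j : Set (𝓞 K ⧸ P ^ n)).ncard * Ideal.absNorm P ^ j = Ideal.absNorm P ^ n := by
  have h1 := (JJ P n j).toAddSubgroup.card_eq_card_quotient_mul_card_addSubgroup
  have h2 : Nat.card ((𝓞 K ⧸ P ^ n) ⧸ (JJ P n j).toAddSubgroup) = Nat.card (𝓞 K ⧸ P ^ j) :=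
    Nat.card_congr (DoubleQuot.quotQuotEquivQuotOfLE (Ideal.pow_le_pow_right h)).toEquiv
  have h3 : Nat.card (JJ P n j).toAddSubgroup = (JJ P n j : Set (𝓞 K ⧸ P ^ n)).ncard :=
    Nat.card_coe_set_eq _
  rw [card_quot hP, h2, card_quot hP, h3] at h1
  rw [h1, mul_comm]

theorem ncard_JJ {P : Ideal (𝓞 K)} (hP : P ≠ ⊥) [P.IsPrime] {n j : ℕ} (h : j ≤ n) :
    (JJ P n j : Set (𝓞 K ⧸ P ^ n)).ncard = Ideal.absNorm P ^ (n - j) := by
  have h1 := card_JJ hP h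
  have hq : 0 < Ideal.absNorm P := Nat.pos_of_ne_zero (by rwa [Ne, Ideal.absNorm_eq_zero_iff])
  have h2 : Ideal.absNorm P ^ n = Ideal.absNorm P ^ (n - j) * Ideal.absNorm P ^ j := by
    rw [← pow_add, Nat.sub_add_cancel h]
  rw [h2] at h1
  exact Nat.eq_of_mul_eq_mul_right (pow_pos hq j) h1

/-- pairs, not both in `P`, with `x y (x + y)` in `P ^ j` -/
def TT (P : Ideal (𝓞 K)) (n j : ℕ) : Set ((𝓞 K ⧸ P ^ n) × (𝓞 K ⧸ P ^ n)) :=
  {x | ¬ (x.1 ∈ JJ P n 1 ∧ x.2 ∈ JJ P n 1) ∧ x.1 * x.2 * (x.1 + x.2) ∈ JJ P n j}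

theorem prod_mem {P : Ideal (𝓞 K)} [hP : P.IsPrime] {j : ℕ} {a b : 𝓞 K} (hj : 1 ≤ j)
    (h : ¬ (a ∈ P ∧ b ∈ P)) : a * b * (a + b) ∈ P ^ j ↔
      (a ∈ P ^ j ∧ b ∉ P) ∨ (b ∈ P ^ j ∧ a ∉ P) ∨ (a + b ∈ P ^ j ∧ b ∉ P) := by
  have hle : P ^ j ≤ P := Ideal.pow_le_self (by omega)
  constructor
  · intro h1
    by_cases hb : b ∈ P
    · have ha : a ∉ P := fun ha => h ⟨ha, hb⟩
      have hab : a + b ∉ P := fun hab => ha (by simpa using P.sub_mem hab hb)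
      right; left
      refine ⟨?_, ha⟩
      have h2 : a * (b * (a + b)) ∈ P ^ j := by rwa [← mul_assoc]
      have h3 := (hP.mul_mem_pow P h2).resolve_left ha
      have h4 : (a + b) * b ∈ P ^ j := by rwa [mul_comm]
      exact (hP.mul_mem_pow P h4).resolve_left hab
    · by_cases ha : a ∈ P
      · have hab : a + b ∉ P := fun hab => hb (by simpa using P.sub_mem hab ha)
        left
        refine ⟨?_, hb⟩
        have h2 : b * ((a + b) * a) ∈ P ^ j := by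
          have : b * ((a + b) * a) = a * b * (a + b) := by ring
          rwa [this]
        have h3 := (hP.mul_mem_pow P h2).resolve_left hb
        exact (hP.mul_mem_pow P h3).resolve_left hab
      · right; right
        refine ⟨?_, hb⟩
        have h2 : b * (a * (a + b)) ∈ P ^ j := by
          have : b * (a * (a + b)) = a * b * (a + b) := by ring
          rwa [this]
        have h3 := (hP.mul_mem_pow P h2).resolve_left hb
        exact (hP.mul_mem_pow P h3).resolve_left ha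
  · rintro (⟨h1, -⟩ | ⟨h1, -⟩ | ⟨h1, -⟩)
    · exact Ideal.mul_mem_right _ _ (Ideal.mul_mem_right _ _ h1)
    · exact Ideal.mul_mem_right _ _ (Ideal.mul_mem_left _ _ h1)
    · exact Ideal.mul_mem_left _ _ h1

theorem card_TT {P : Ideal (𝓞 K)} (hP : P ≠ ⊥) [P.IsPrime] {n j : ℕ} (hj : 1 ≤ j) (h : j ≤ n) :
    (TT P n j).ncard = 3 * (Ideal.absNorm P ^ (n - j) *
      (Ideal.absNorm P ^ n - Ideal.absNorm P ^ (n - 1))) := by
  have := fin_quot hP n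
  have h1n : 1 ≤ n := hj.trans h
  set A : Set ((𝓞 K ⧸ P ^ n) × (𝓞 K ⧸ P ^ n)) :=
    (JJ P n j : Set _) ×ˢ (JJ P n 1 : Set _)ᶜ with hA
  set B : Set ((𝓞 K ⧸ P ^ n) × (𝓞 K ⧸ P ^ n)) :=
    (JJ P n 1 : Set _)ᶜ ×ˢ (JJ P n j : Set _) with hB
  set C : Set ((𝓞 K ⧸ P ^ n) × (𝓞 K ⧸ P ^ n)) :=
    (fun x : (𝓞 K ⧸ P ^ n) × (𝓞 K ⧸ P ^ n) => (x.1 - x.2, x.2)) '' A with hC
  have hc1 : ((JJ P n 1 : Set (𝓞 K ⧸ P ^ n))ᶜ).ncard =
      Ideal.absNorm P ^ n - Ideal.absNorm P ^ (n - 1) := by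
    have h2 := Set.ncard_add_ncard_compl (JJ P n 1 : Set (𝓞 K ⧸ P ^ n))
    rw [ncard_JJ hP h1n, card_quot hP] at h2
    omega
  have hcA : A.ncard = Ideal.absNorm P ^ (n - j) *
      (Ideal.absNorm P ^ n - Ideal.absNorm P ^ (n - 1)) := by
    rw [hA, Set.ncard_prod, hc1, ncard_JJ hP h]
  have hcB : B.ncard = Ideal.absNorm P ^ (n - j) *
      (Ideal.absNorm P ^ n - Ideal.absNorm P ^ (n - 1)) := by
    rw [hB, Set.ncard_prod, hc1, ncard_JJ hP h, mul_comm]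
  have hcC : C.ncard = Ideal.absNorm P ^ (n - j) *
      (Ideal.absNorm P ^ n - Ideal.absNorm P ^ (n - 1)) := by
    rw [hC, Set.ncard_image_of_injective, hcA]
    rintro ⟨x, y⟩ ⟨x', y'⟩ hxy
    simp only [Prod.mk.injEq] at hxy
    obtain ⟨h1, rfl⟩ := hxy
    simpa using h1
  have hTT : TT P n j = A ∪ (B ∪ C) := by
    ext ⟨x, y⟩
    obtain ⟨a, rfl⟩ := Ideal.Quotient.mk_surjective x
    obtain ⟨b, rfl⟩ := Ideal.Quotient.mk_surjective y
    have e1 : (Ideal.Quotient.mk (P ^ n) a, Ideal.Quotient.mk (P ^ n) b) ∈ C ↔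
        a + b ∈ P ^ j ∧ b ∉ P := by
      rw [hC, Set.mem_image]
      constructor
      · rintro ⟨⟨u, v⟩, ⟨h1, h2⟩, h3⟩
        simp only [Prod.mk.injEq] at h3
        obtain ⟨h3, rfl⟩ := h3
        have h4 : u = Ideal.Quotient.mk (P ^ n) (a + b) := by
          rw [map_add, ← h3]; ring
        rw [h4] at h1
        refine ⟨(mem_JJ h).1 h1, fun hb => h2 ?_⟩
        exact (mem_JJ h1n).2 (by rwa [pow_one])
      · rintro ⟨h1, h2⟩
        refine ⟨(Ideal.Quotient.mk (P ^ n) (a + b), Ideal.Quotient.mk (P ^ n) b),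
          ⟨(mem_JJ h).2 h1, fun h3 => h2 ?_⟩, ?_⟩
        · have := (mem_JJ h1n).1 h3
          rwa [pow_one] at this
        · simp
    have e2 : (Ideal.Quotient.mk (P ^ n) a, Ideal.Quotient.mk (P ^ n) b) ∈ A ↔
        a ∈ P ^ j ∧ b ∉ P := by
      rw [hA, Set.mem_prod]
      simp only [Set.mem_compl_iff, SetLike.mem_coe, mem_JJ h, mem_JJ h1n, pow_one]
    have e3 : (Ideal.Quotient.mk (P ^ n) a, Ideal.Quotient.mk (P ^ n) b) ∈ B ↔
        a ∉ P ∧ b ∈ P ^ j := by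
      rw [hB, Set.mem_prod]
      simp only [Set.mem_compl_iff, SetLike.mem_coe, mem_JJ h, mem_JJ h1n, pow_one]
    have e4 : (Ideal.Quotient.mk (P ^ n) a, Ideal.Quotient.mk (P ^ n) b) ∈ TT P n j ↔
        ¬ (a ∈ P ∧ b ∈ P) ∧ a * b * (a + b) ∈ P ^ j := by
      rw [TT, Set.mem_ofPred_eq]
      simp only [mem_JJ h1n, pow_one]
      rw [← map_mul, ← map_add, ← map_mul, mem_JJ h]
    rw [Set.mem_union, Set.mem_union, e1, e2, e3, e4]
    constructor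
    · rintro ⟨h1, h2⟩
      rcases (prod_mem hj h1).1 h2 with h3 | h3 | h3
      · exact Or.inl h3
      · exact Or.inr (Or.inl h3.symm)
      · exact Or.inr (Or.inr h3)
    · intro h1
      have h2 : ¬ (a ∈ P ∧ b ∈ P) := by
        rcases h1 with h1 | h1 | h1
        · exact fun h => h1.2 h.2
        · exact fun h => h1.1 h.1
        · exact fun h => h1.2 h.2
      refine ⟨h2, (prod_mem hj h2).2 ?_⟩
      rcases h1 with h1 | h1 | h1
      · exact Or.inl h1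
      · exact Or.inr (Or.inl h1.symm)
      · exact Or.inr (Or.inr h1)
  have hle : JJ P n j ≤ JJ P n 1 := by
    rw [JJ, JJ]
    exact Ideal.map_mono (Ideal.pow_le_pow_right hj)
  have d1 : Disjoint B C := by
    rw [Set.disjoint_left]
    rintro ⟨x, y⟩ ⟨-, h2⟩ ⟨⟨u, v⟩, ⟨-, h3⟩, h4⟩
    simp only [Prod.mk.injEq] at h4
    obtain ⟨-, rfl⟩ := h4
    exact h3 (hle h2)
  have d2 : Disjoint A (B ∪ C) := by
    rw [Set.disjoint_left]
    rintro ⟨x, y⟩ ⟨h1, h2⟩ (⟨h3, h4⟩ | ⟨⟨u, v⟩, ⟨h3, h4⟩, h5⟩)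
    · exact h3 (hle h1)
    · simp only [Prod.mk.injEq] at h5
      obtain ⟨h5, rfl⟩ := h5
      apply h4
      have : v = u - x := by rw [← h5]; ring
      simp only at h3 h1
      rw [this]
      exact Ideal.sub_mem _ (hle h3) (hle h1)
  rw [hTT, Set.ncard_union_eq d2, Set.ncard_union_eq d1, hcA, hcB, hcC]
  ring

end

/-- LOC -/
theorem loc : S_LOC := by
  intro K _ _ P e
  have hP := P.ne_bot
  have := P.isPrime
  have hfin := fin_quot hP (e + 2)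
  obtain ⟨q, hq⟩ : ∃ q, q = Ideal.absNorm P.asIdeal := ⟨_, rfl⟩
  have hq0 : 0 < q := by
    rw [hq]; exact Nat.pos_of_ne_zero (by rwa [Ne, Ideal.absNorm_eq_zero_iff])
  have hnP : nP P = q := by rw [nP, hq]
  have hq0' : (q : ℝ) ≠ 0 := by exact_mod_cast hq0.ne'
  have key : ∀ a b : 𝓞 K, ((Ideal.Quotient.mk (P.asIdeal ^ (e + 2)) a,
      Ideal.Quotient.mk (P.asIdeal ^ (e + 2)) b) ∈
      {x : (𝓞 K ⧸ P.asIdeal ^ (e + 2)) × (𝓞 K ⧸ P.asIdeal ^ (e + 2)) | ∃ a b : 𝓞 K,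
        x = (Ideal.Quotient.mk _ a, Ideal.Quotient.mk _ b) ∧ Cnd P e a b}) ↔ Cnd P e a b := by
    intro a b
    rw [Set.mem_ofPred_eq]
    constructor
    · rintro ⟨a', b', h1, h2⟩
      simp only [Prod.mk.injEq] at h1
      obtain ⟨h1, h1'⟩ := h1
      have i1 : a ∈ P.asIdeal ↔ a' ∈ P.asIdeal := by
        have := mem_JJ (P := P.asIdeal) (n := e + 2) (j := 1) (by omega) (a := a)
        rw [h1, mem_JJ (by omega), pow_one] at this
        exact this.symm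
      have i2 : b ∈ P.asIdeal ↔ b' ∈ P.asIdeal := by
        have := mem_JJ (P := P.asIdeal) (n := e + 2) (j := 1) (by omega) (a := b)
        rw [h1', mem_JJ (by omega), pow_one] at this
        exact this.symm
      have i3 : ∀ j, j ≤ e + 2 → (a * b * (a + b) ∈ P.asIdeal ^ j ↔
          a' * b' * (a' + b') ∈ P.asIdeal ^ j) := by
        intro j hj
        rw [← mem_JJ (P := P.asIdeal) (n := e + 2) hj, ← mem_JJ (P := P.asIdeal) (n := e + 2) hj]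
        rw [map_mul, map_mul, map_add, h1, h1', ← map_mul, ← map_add, ← map_mul]
      unfold Cnd at h2 ⊢
      rw [i1, i2, i3 _ le_rfl, i3 (e + 1) (by omega)]
      exact h2
    · intro h
      exact ⟨a, b, rfl, h⟩
  by_cases he : e = 0
  · have hS : {x : (𝓞 K ⧸ P.asIdeal ^ (e + 2)) × (𝓞 K ⧸ P.asIdeal ^ (e + 2)) | ∃ a b : 𝓞 K,
        x = (Ideal.Quotient.mk _ a, Ideal.Quotient.mk _ b) ∧ Cnd P e a b} =
        ((JJ P.asIdeal (e + 2) 1 : Set _) ×ˢ (JJ P.asIdeal (e + 2) 1 : Set _))ᶜ \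
          TT P.asIdeal (e + 2) (e + 2) := by
      ext ⟨x, y⟩
      obtain ⟨a, rfl⟩ := Ideal.Quotient.mk_surjective x
      obtain ⟨b, rfl⟩ := Ideal.Quotient.mk_surjective y
      rw [key a b]
      rw [Set.mem_sdiff, Set.mem_compl_iff, Set.mem_prod, SetLike.mem_coe, SetLike.mem_coe,
        mem_JJ (show 1 ≤ e + 2 by omega), mem_JJ (show 1 ≤ e + 2 by omega)]
      rw [TT, Set.mem_ofPred_eq]
      rw [mem_JJ (show 1 ≤ e + 2 by omega), mem_JJ (show 1 ≤ e + 2 by omega), pow_one]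
      rw [← map_mul, ← map_add, ← map_mul, mem_JJ le_rfl]
      unfold Cnd
      tauto
    have hsub : TT P.asIdeal (e + 2) (e + 2) ⊆
        ((JJ P.asIdeal (e + 2) 1 : Set (𝓞 K ⧸ P.asIdeal ^ (e + 2))) ×ˢ
          (JJ P.asIdeal (e + 2) 1 : Set _))ᶜ := by
      rintro ⟨x, y⟩ ⟨h1, -⟩ ⟨h2, h3⟩
      exact h1 ⟨h2, h3⟩
    have c1 := Set.ncard_add_ncard_compl
      ((JJ P.asIdeal (e + 2) 1 : Set (𝓞 K ⧸ P.asIdeal ^ (e + 2))) ×ˢ
        (JJ P.asIdeal (e + 2) 1 : Set (𝓞 K ⧸ P.asIdeal ^ (e + 2))))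
    rw [Set.ncard_prod, ncard_JJ hP (by omega), Nat.card_prod, card_quot hP, ← hq] at c1
    have c2 := Set.ncard_sdiff_add_ncard_of_subset hsub
    rw [card_TT hP (by omega) le_rfl, ← hq] at c2
    rw [hS, hnP, dl, if_pos he]
    generalize (((JJ P.asIdeal (e + 2) 1 : Set (𝓞 K ⧸ P.asIdeal ^ (e + 2))) ×ˢ
          (JJ P.asIdeal (e + 2) 1 : Set (𝓞 K ⧸ P.asIdeal ^ (e + 2))))ᶜ \
            TT P.asIdeal (e + 2) (e + 2)).ncard = u at c2 ⊢
    generalize (((JJ P.asIdeal (e + 2) 1 : Set (𝓞 K ⧸ P.asIdeal ^ (e + 2))) ×ˢ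
          (JJ P.asIdeal (e + 2) 1 : Set (𝓞 K ⧸ P.asIdeal ^ (e + 2))))ᶜ).ncard = v at c1 c2
    clear hS hsub key hfin
    subst he
    have hq1 : q ^ (2 - 1) ≤ q ^ 2 := Nat.pow_le_pow_right hq0 (by norm_num)
    have c3 : (((q ^ 2 - q ^ (2 - 1) : ℕ)) : ℝ) = (q : ℝ) ^ 2 - q := by
      rw [Nat.cast_sub hq1]; push_cast; ring
    norm_num at c1 c2
    norm_num at c3
    have c1' := congrArg (fun n : ℕ => (n : ℝ)) c1
    have c2' := congrArg (fun n : ℕ => (n : ℝ)) c2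
    simp only [Nat.cast_add, Nat.cast_mul, c3, Nat.cast_pow, Nat.cast_ofNat] at c1' c2'
    have : (1 - 4 / (q : ℝ) ^ 2 + 3 / (q : ℝ) ^ 3) * ((q : ℝ) ^ (0 + 2)) ^ 2 =
        (q : ℝ) ^ 4 - 4 * (q : ℝ) ^ 2 + 3 * q := by
      field_simp
      ring
    rw [this]
    linarith
  · have hS : {x : (𝓞 K ⧸ P.asIdeal ^ (e + 2)) × (𝓞 K ⧸ P.asIdeal ^ (e + 2)) | ∃ a b : 𝓞 K,
        x = (Ideal.Quotient.mk _ a, Ideal.Quotient.mk _ b) ∧ Cnd P e a b} =
        TT P.asIdeal (e + 2) (e + 1) \ TT P.asIdeal (e + 2) (e + 2) := by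
      ext ⟨x, y⟩
      obtain ⟨a, rfl⟩ := Ideal.Quotient.mk_surjective x
      obtain ⟨b, rfl⟩ := Ideal.Quotient.mk_surjective y
      rw [key a b]
      rw [Set.mem_sdiff]
      rw [TT, TT, Set.mem_ofPred_eq, Set.mem_ofPred_eq]
      simp only [mem_JJ (show 1 ≤ e + 2 by omega), pow_one]
      rw [← map_mul, ← map_add, ← map_mul, mem_JJ le_rfl, mem_JJ (by omega)]
      unfold Cnd
      tauto
    have hsub : TT P.asIdeal (e + 2) (e + 2) ⊆ TT P.asIdeal (e + 2) (e + 1) := by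
      rintro ⟨x, y⟩ ⟨h1, h2⟩
      refine ⟨h1, ?_⟩
      have : JJ P.asIdeal (e + 2) (e + 2) ≤ JJ P.asIdeal (e + 2) (e + 1) :=
        Ideal.map_mono (Ideal.pow_le_pow_right (by omega))
      exact this h2
    have c2 := Set.ncard_sdiff_add_ncard_of_subset hsub
    rw [card_TT hP (by omega) le_rfl, card_TT hP (by omega) (by omega), ← hq] at c2
    have hq1 : q ^ (e + 2 - 1) ≤ q ^ (e + 2) := Nat.pow_le_pow_right hq0 (by omega)
    have c3 : (((q ^ (e + 2) - q ^ (e + 2 - 1) : ℕ)) : ℝ) = (q : ℝ) ^ (e + 2) - q ^ (e + 1) := by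
      rw [Nat.cast_sub hq1]; push_cast; rfl
    have c2' := congrArg (fun n : ℕ => (n : ℝ)) c2
    simp only [Nat.cast_add, Nat.cast_mul, c3, Nat.cast_pow] at c2'
    have e1 : e + 2 - (e + 1) = 1 := by omega
    rw [e1, Nat.sub_self] at c2'
    rw [hS, hnP, dl, if_neg he]
    have : 3 * (1 - 1 / (q : ℝ)) ^ 2 / (q : ℝ) ^ (e + 1) * ((q : ℝ) ^ (e + 2)) ^ 2 =
        3 * ((q - 1) * ((q : ℝ) ^ (e + 2) - q ^ (e + 1))) := by
      field_simp
      ring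
    rw [this]
    push_cast at c2' ⊢
    linarith

end Pool.Agent.P8H86.JG
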