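import Pool.Agent.P8H82.JG.Stm

set_option autoImplicit false

/-! # Package LP of project JG: pairs of integers in a coset of `𝔪 × 𝔪` -/

namespace Pool.Agent.P8H86.JG

open NumberField IsDedekindDomain MeasureTheory Filter Topology Pool.Agent.P8H82.JG

/-! ### The linear map -/

/-- the two conjugates of the golden ratio -/
noncomputable def gs : ℝ := (1 + √5) / 2
noncomputable def gt : ℝ := (1 - √5) / 2

theorem gs_sub : gs - gt = √5 := by unfold gs gt; ring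

theorem sq5 : √(5 : ℝ) * √5 = 5 := Real.mul_self_sqrt (by norm_num)

theorem sqrt5_ne : √(5 : ℝ) ≠ 0 := by
  intro h
  have := sq5
  rw [h] at this
  norm_num at this

/-- the linear map -/
noncomputable def LE : (Fin 4 → ℝ) ≃ₗ[ℝ] ℝ × ℝ × ℝ × ℝ where
  toFun z := (z 0 + gs * z 1, z 0 + gt * z 1, z 2 + gs * z 3, z 2 + gt * z 3)
  invFun p := ![p.1 - gs * ((p.1 - p.2.1) / √5), (p.1 - p.2.1) / √5,
    p.2.2.1 - gs * ((p.2.2.1 - p.2.2.2) / √5), (p.2.2.1 - p.2.2.2) / √5]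
  map_add' x y := by
    simp only [Pi.add_apply, Prod.mk_add_mk, Prod.mk.injEq]
    refine ⟨by ring, by ring, by ring, by ring⟩
  map_smul' c x := by
    simp only [Pi.smul_apply, smul_eq_mul, RingHom.id_apply, Prod.smul_mk, Prod.mk.injEq]
    refine ⟨by ring, by ring, by ring, by ring⟩
  left_inv z := by
    have h1 : ∀ u v : ℝ, (u + gs * v - (u + gt * v)) / √5 = v := by
      intro u v
      have : u + gs * v - (u + gt * v) = (gs - gt) * v := by ring
      rw [this, gs_sub, mul_div_cancel_left₀ _ sqrt5_ne]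
    ext i
    fin_cases i
    · simp only [h1]; simp
    · simp only [h1]; simp
    · simp only [h1]; simp
    · simp only [h1]; simp
  right_inv p := by
    have h1 : ∀ u v : ℝ, u - gs * ((u - v) / √5) + gt * ((u - v) / √5) = v := by
      intro u v
      have : u - gs * ((u - v) / √5) + gt * ((u - v) / √5) =
          u - (gs - gt) * ((u - v) / √5) := by ring
      rw [this, gs_sub, mul_div_cancel₀ _ sqrt5_ne]
      ring
    obtain ⟨p1, p2, p3, p4⟩ := p
    simp only [Matrix.cons_val_zero, Matrix.cons_val_one, Matrix.cons_val, Prod.mk.injEq]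
    refine ⟨by ring, h1 _ _, by ring, h1 _ _⟩

theorem LE_apply (z : Fin 4 → ℝ) :
    LE z = (z 0 + gs * z 1, z 0 + gt * z 1, z 2 + gs * z 3, z 2 + gt * z 3) := rfl

theorem mp4 : MeasurePreserving (fun z : Fin 4 → ℝ => (z 0, z 1, z 2, z 3)) volume volume := by
  have m1 := volume_preserving_piFinSuccAbove (fun _ : Fin 4 => ℝ) 0
  have m2 := volume_preserving_piFinSuccAbove (fun _ : Fin 3 => ℝ) 0
  have m3 := volume_preserving_finTwoArrow ℝ
  have m := ((MeasurePreserving.id (volume : Measure ℝ)).prod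
    (((MeasurePreserving.id (volume : Measure ℝ)).prod m3).comp m2)).comp m1
  exact m

theorem vol_pre {S : Set (ℝ × ℝ × ℝ × ℝ)} (hS : MeasurableSet S) :
    volume (LE ⁻¹' S) = ENNReal.ofReal (1 / 5) * volume S := by
  set M : Matrix (Fin 4) (Fin 4) ℝ := !![1, gs, 0, 0; 1, gt, 0, 0; 0, 0, 1, gs; 0, 0, 1, gt]
    with hM
  have hdet : M.det = 5 := by
    have : M.det = (gs - gt) * (gs - gt) := by
      rw [hM]
      simp [Matrix.det_succ_row_zero, Fin.sum_univ_succ, Fin.succAbove]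
      ring
    rw [this, gs_sub, sq5]
  have h1 : LE ⁻¹' S = (Matrix.toLin' M) ⁻¹' ((fun z : Fin 4 → ℝ => (z 0, z 1, z 2, z 3)) ⁻¹' S) := by
    ext z
    simp only [Set.mem_preimage]
    have : (LE z : ℝ × ℝ × ℝ × ℝ) = (Matrix.toLin' M z 0, Matrix.toLin' M z 1,
        Matrix.toLin' M z 2, Matrix.toLin' M z 3) := by
      rw [LE_apply]
      simp only [Matrix.toLin'_apply, hM, Matrix.mulVec, dotProduct, Fin.sum_univ_four]
      simp
    rw [this]
  have hd : LinearMap.det (Matrix.toLin' M) = 5 := by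
    rw [LinearMap.det_toLin', hdet]
  rw [h1, Measure.addHaar_preimage_linearMap volume (by rw [hd]; norm_num), hd,
    mp4.measure_preimage hS.nullMeasurableSet]
  congr 2
  rw [abs_of_pos (by norm_num)]
  norm_num

theorem jor_pre {D : Set (ℝ × ℝ × ℝ × ℝ)} (hD : Jor volume D) :
    Jor volume (LE ⁻¹' D) ∧ (volume (LE ⁻¹' D)).toReal = (volume D).toReal / 5 := by
  obtain ⟨h1, h2, h3⟩ := hD
  have hc : Continuous LE := LE.toContinuousLinearEquiv.continuous
  refine ⟨⟨?_, hc.measurable h2, ?_⟩, ?_⟩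
  · have : LE ⁻¹' D = LE.symm.toContinuousLinearEquiv '' D := by
      ext z
      simp only [Set.mem_preimage, Set.mem_image]
      constructor
      · intro h
        exact ⟨LE z, h, LE.symm_apply_apply z⟩
      · rintro ⟨p, hp, rfl⟩
        have : LE (LE.symm.toContinuousLinearEquiv p) = p := LE.apply_symm_apply p
        rwa [this]
    rw [this]
    exact (LE.symm.toContinuousLinearEquiv : (ℝ × ℝ × ℝ × ℝ) →L[ℝ] (Fin 4 → ℝ)).lipschitz.isBounded_image h1
  · have : frontier (LE ⁻¹' D) = LE ⁻¹' frontier D :=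
      (LE.toContinuousLinearEquiv.toHomeomorph.preimage_frontier D).symm
    rw [this, vol_pre isClosed_frontier.measurableSet, h3, mul_zero]
  · rw [vol_pre h2, ENNReal.toReal_mul, ENNReal.toReal_ofReal (by norm_num)]
    ring

/-! ### The count -/

theorem fin_box {D : Set (Fin 4 → ℝ)} (hD : Bornology.IsBounded D) {l : ℝ} (hl : 0 < l) :
    {z : Fin 4 → ℤ | (fun i => (z i : ℝ) / l) ∈ D}.Finite := by
  obtain ⟨R, hR⟩ := hD.exists_norm_le
  refine (Set.finite_Icc (fun _ : Fin 4 => -⌈R * l⌉) (fun _ => ⌈R * l⌉)).subset ?_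
  intro z hz
  have h1 := hR _ hz
  have h2 : ∀ i, |(z i : ℝ)| ≤ R * l := by
    intro i
    have h3 := (norm_le_pi_norm (fun i => (z i : ℝ) / l) i).trans h1
    simp only [Real.norm_eq_abs] at h3
    rw [abs_div, abs_of_pos hl, div_le_iff₀ hl] at h3
    exact h3
  rw [Set.mem_Icc, Pi.le_def, Pi.le_def]
  constructor <;> intro i
  · have h3 := (abs_le.1 (h2 i)).1
    have h4 := Int.le_ceil (R * l)
    have h5 : ((-⌈R * l⌉ : ℤ) : ℝ) ≤ z i := by push_cast; linarith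
    exact_mod_cast h5
  · have h3 := (abs_le.1 (h2 i)).2
    have h4 := Int.le_ceil (R * l)
    have h5 : (z i : ℝ) ≤ ((⌈R * l⌉ : ℤ) : ℝ) := by linarith
    exact_mod_cast h5

/-- LP -/
theorem lp (hEQ : S_EQ) (hINT : S_INT) : S_LP := by
  intro K _ _ σ τ hG 𝔪 h𝔪 α β D hD
  obtain ⟨φ, -, hσ, hτ, hex, huniq⟩ := hINT K σ τ hG
  obtain ⟨N, hN⟩ : ∃ N, N = Ideal.absNorm 𝔪 := ⟨_, rfl⟩
  have hN0 : 0 < N := by
    rw [hN]; exact Nat.pos_of_ne_zero (by rwa [Ne, Ideal.absNorm_eq_zero_iff])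
  have hNm : (N : 𝓞 K) ∈ 𝔪 := by rw [hN]; exact Ideal.absNorm_mem 𝔪
  have : NeZero N := ⟨hN0.ne'⟩
  have hN0' : (N : ℝ) ≠ 0 := by exact_mod_cast hN0.ne'
  obtain ⟨hD', hvol⟩ := jor_pre hD
  have hfinQ : Finite (𝓞 K ⧸ 𝔪) := Ideal.finiteQuotientOfFreeOfNeBot _ h𝔪
  -- the bijection
  set Φ : (Fin 4 → ℤ) → 𝓞 K × 𝓞 K := fun z => ((z 0 : 𝓞 K) + z 1 * φ, (z 2 : 𝓞 K) + z 3 * φ)
    with hΦ
  have hΦi : Function.Injective Φ := by
    intro z z' h
    simp only [hΦ, Prod.mk.injEq] at h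
    obtain ⟨h0, h1⟩ := huniq _ _ _ _ h.1
    obtain ⟨h2, h3⟩ := huniq _ _ _ _ h.2
    ext i
    fin_cases i
    · exact h0
    · exact h1
    · exact h2
    · exact h3
  have hΦs : ∀ q : 𝓞 K × 𝓞 K, ∃ z, Φ z = q := by
    rintro ⟨a, b⟩
    obtain ⟨m, n, rfl⟩ := hex a
    obtain ⟨m', n', rfl⟩ := hex b
    exact ⟨![m, n, m', n'], by simp [hΦ]⟩
  have hemb : ∀ (l : ℝ) (z : Fin 4 → ℤ), emb σ τ l (Φ z).1 (Φ z).2 =
      LE (fun i => (z i : ℝ) / l) := by
    intro l z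
    rw [LE_apply]
    simp only [emb, hΦ, Prod.mk.injEq]
    have e1 : ∀ m n : ℤ, σ (((m : 𝓞 K) + n * φ : 𝓞 K) : K) = m + n * gs := by
      intro m n
      have : (((m : 𝓞 K) + n * φ : 𝓞 K) : K) = (m : K) + n * (φ : K) := by push_cast; rfl
      rw [this, map_add, map_mul, map_intCast, map_intCast, hσ, gs]
    have e2 : ∀ m n : ℤ, τ (((m : 𝓞 K) + n * φ : 𝓞 K) : K) = m + n * gt := by
      intro m n
      have : (((m : 𝓞 K) + n * φ : 𝓞 K) : K) = (m : K) + n * (φ : K) := by push_cast; rfl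
      rw [this, map_add, map_mul, map_intCast, map_intCast, hτ, gt]
    rw [e1, e1, e2, e2]
    refine ⟨by ring, by ring, by ring, by ring⟩
  -- the residues
  let c : ZMod N →+ 𝓞 K ⧸ 𝔪 := ZMod.lift N ⟨Int.castAddHom (𝓞 K ⧸ 𝔪), by
    have : (Ideal.Quotient.mk 𝔪 (N : 𝓞 K)) = 0 := Ideal.Quotient.eq_zero_iff_mem.2 hNm
    rw [map_natCast] at this
    simpa using this⟩
  have hc : ∀ k : ℤ, c (k : ZMod N) = (k : 𝓞 K ⧸ 𝔪) := fun k => ZMod.lift_coe _ _ _
  let h : (Fin 4 → ZMod N) →+ (𝓞 K ⧸ 𝔪) × (𝓞 K ⧸ 𝔪) := AddMonoidHom.mk'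
    (fun v => (c (v 0) + c (v 1) * Ideal.Quotient.mk 𝔪 φ,
      c (v 2) + c (v 3) * Ideal.Quotient.mk 𝔪 φ)) (by
      intro v w
      simp only [Pi.add_apply, map_add, Prod.mk_add_mk, Prod.mk.injEq]
      constructor <;> ring)
  have hh : ∀ z : Fin 4 → ℤ, h (fun i => (z i : ZMod N)) =
      (Ideal.Quotient.mk 𝔪 (Φ z).1, Ideal.Quotient.mk 𝔪 (Φ z).2) := by
    intro z
    change (c (z 0 : ZMod N) + c (z 1 : ZMod N) * Ideal.Quotient.mk 𝔪 φ,
      c (z 2 : ZMod N) + c (z 3 : ZMod N) * Ideal.Quotient.mk 𝔪 φ) = _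
    rw [hc, hc, hc, hc]
    simp only [hΦ, map_add, map_mul, map_intCast]
  have hsurj : Function.Surjective h := by
    rintro ⟨x, y⟩
    obtain ⟨a, rfl⟩ := Ideal.Quotient.mk_surjective x
    obtain ⟨b, rfl⟩ := Ideal.Quotient.mk_surjective y
    obtain ⟨z, hz⟩ := hΦs (a, b)
    refine ⟨fun i => (z i : ZMod N), ?_⟩
    rw [hh, hz]
  have hcardQ : Nat.card (𝓞 K ⧸ 𝔪) = N := by
    rw [hN, Ideal.absNorm_apply, Submodule.cardQuot_apply]
  set γ : (𝓞 K ⧸ 𝔪) × (𝓞 K ⧸ 𝔪) := (Ideal.Quotient.mk 𝔪 α, Ideal.Quotient.mk 𝔪 β) with hγ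
  classical
  have hcardC : ((Finset.univ.filter fun v : Fin 4 → ZMod N => h v = γ).card : ℝ) =
      (N : ℝ) ^ 2 := by
    have e1 : (Finset.univ.filter fun v : Fin 4 → ZMod N => h v = γ).card = Nat.card h.ker := by
      rw [← Nat.card_congr (AddMonoidHom.fiberEquivKerOfSurjective hsurj γ)]
      rw [Nat.card_eq_fintype_card, ← Set.toFinset_card]
      congr 1
      ext v
      simp
    have e2 := h.ker.card_eq_card_quotient_mul_card_addSubgroup
    rw [Nat.card_congr (QuotientAddGroup.quotientKerEquivOfSurjective h hsurj).toEquiv,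
      Nat.card_prod, hcardQ, Nat.card_fun, Nat.card_zmod, Nat.card_fin] at e2
    rw [e1]
    have e3 : ((N ^ 4 : ℕ) : ℝ) = ((N * N * Nat.card h.ker : ℕ) : ℝ) := by exact_mod_cast e2
    push_cast at e3
    have e4 : (N : ℝ) ^ 2 * ((N : ℝ) ^ 2) = (N : ℝ) ^ 2 * (Nat.card h.ker : ℝ) := by
      have e5 : (N : ℝ) ^ 2 * ((N : ℝ) ^ 2) = (N : ℝ) ^ 4 := by ring
      rw [e5, e3]; ring
    exact (mul_left_cancel₀ (pow_ne_zero 2 hN0') e4).symm
  -- the limits
  have hlim : ∀ v : Fin 4 → ZMod N, Tendsto (fun l : ℝ =>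
      (({z : Fin 4 → ℤ | (fun i => (z i : ZMod N)) = v ∧
        (fun i => (z i : ℝ) / l) ∈ LE ⁻¹' D}.ncard : ℕ) : ℝ) / l ^ 4) atTop
      (𝓝 ((volume (LE ⁻¹' D)).toReal / (N : ℝ) ^ 4)) := by
    intro v
    have := hEQ 4 _ hD' N hN0 (fun i => ((v i).val : ℤ))
    refine this.congr fun l => ?_
    congr 3
    ext z
    rw [Set.mem_ofPred_eq, Set.mem_ofPred_eq]
    refine and_congr ?_ Iff.rfl
    constructor
    · rintro ⟨y, hy⟩
      ext i
      rw [hy i]
      push_cast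
      rw [ZMod.natCast_self, zero_mul, add_zero, ZMod.natCast_val, ZMod.cast_id', id]
    · intro hz
      have h1 : ∀ i, (N : ℤ) ∣ z i - ((v i).val : ℤ) := by
        intro i
        rw [← ZMod.intCast_zmod_eq_zero_iff_dvd]
        push_cast
        rw [congrFun hz i, ZMod.natCast_val, ZMod.cast_id', id, sub_self]
      choose y hy using h1
      exact ⟨y, fun i => by rw [← hy i]; ring⟩
  have hsum : Tendsto (fun l : ℝ => ∑ v ∈ Finset.univ.filter fun v : Fin 4 → ZMod N => h v = γ,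
      (({z : Fin 4 → ℤ | (fun i => (z i : ZMod N)) = v ∧
        (fun i => (z i : ℝ) / l) ∈ LE ⁻¹' D}.ncard : ℕ) : ℝ) / l ^ 4) atTop
      (𝓝 (∑ v ∈ Finset.univ.filter fun v : Fin 4 → ZMod N => h v = γ,
        (volume (LE ⁻¹' D)).toReal / (N : ℝ) ^ 4)) :=
    tendsto_finsetSum _ fun v _ => hlim v
  have hval : ∑ v ∈ Finset.univ.filter fun v : Fin 4 → ZMod N => h v = γ,
        (volume (LE ⁻¹' D)).toReal / (N : ℝ) ^ 4 =
      (volume D).toReal / (5 * (Ideal.absNorm 𝔪 : ℝ) ^ 2) := by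
    rw [Finset.sum_const, nsmul_eq_mul, hcardC, hvol, ← hN]
    field_simp
  rw [hval] at hsum
  refine hsum.congr' ?_
  filter_upwards [eventually_gt_atTop 0] with l hl
  rw [← Finset.sum_div]
  congr 1
  have hF := fin_box hD'.1 hl
  have e1 : {q : 𝓞 K × 𝓞 K | q.1 - α ∈ 𝔪 ∧ q.2 - β ∈ 𝔪 ∧ emb σ τ l q.1 q.2 ∈ D} =
      Φ '' {z : Fin 4 → ℤ | (fun i => (z i : ℝ) / l) ∈ LE ⁻¹' D ∧
        h (fun i => (z i : ZMod N)) = γ} := by
    ext q
    obtain ⟨z, rfl⟩ := hΦs q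
    rw [hΦi.mem_set_image, Set.mem_ofPred_eq, Set.mem_ofPred_eq, hemb, hh, hγ, Prod.mk.injEq,
      Ideal.Quotient.eq, Ideal.Quotient.eq, Set.mem_preimage]
    tauto
  rw [e1, Set.ncard_image_of_injective _ hΦi]
  have e2 : {z : Fin 4 → ℤ | (fun i => (z i : ℝ) / l) ∈ LE ⁻¹' D ∧
        h (fun i => (z i : ZMod N)) = γ} =
      ↑(hF.toFinset.filter fun z => h (fun i => (z i : ZMod N)) = γ) := by
    ext z
    simp
  rw [e2, Set.ncard_coe_finset]
  have e3 := Finset.card_eq_sum_card_fiberwise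
    (s := hF.toFinset.filter fun z => h (fun i => (z i : ZMod N)) = γ)
    (t := Finset.univ.filter fun v : Fin 4 → ZMod N => h v = γ)
    (f := fun z i => (z i : ZMod N)) (by
      intro z hz
      have hz2 := (Finset.mem_filter.1 (Finset.mem_coe.1 hz)).2
      exact Finset.mem_coe.2 (Finset.mem_filter.2 ⟨Finset.mem_univ _, hz2⟩))
  rw [e3]
  push_cast
  refine Finset.sum_congr rfl fun v hv => ?_
  congr 1
  rw [← Set.ncard_coe_finset]
  congr 1
  ext z
  have hv2 := (Finset.mem_filter.1 hv).2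
  simp only [Finset.coe_filter, Finset.mem_filter, Set.Finite.mem_toFinset, Set.mem_ofPred_eq]
  constructor
  · rintro ⟨h1, h2⟩
    exact ⟨⟨h2, by rw [h1]; exact hv2⟩, h1⟩
  · rintro ⟨⟨h1, -⟩, h2⟩
    exact ⟨h2, h1⟩

end Pool.Agent.P8H86.JG
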